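import Pool.Agent.H60.EH.PDc
import Pool.Agent.H44.EH.Circ

/-!
# EH-PDd: passing down a level, in terms of `TD`
-/

set_option autoImplicit false

open Polynomial Set
open Pool.Agent.H88.LD Pool.Agent.H88.LE Pool.Agent.H44.EH

noncomputable section

namespace Pool.Agent.H60.EH

/-- passing down from the level `r > 1` to the level `1` -/
theorem td_pass_down {f : ℂ[X]} (hf : f.Monic) {n : ℕ} (hn : f.natDegree = n) (hn0 : 0 < n)
    {r : ℝ} (hr : 1 < r) {O O' : Set ℂ} (hS : Sep f r O O') (hk : (lem f 1 ∩ O).Nonempty)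
    {d : ℝ} (hd : 0 < d) (hT : TD (lem f r ∩ O) d) :
    TD (lem f 1 ∩ O) (d * r ^ (-(1 : ℝ) / n)) := by
  have hn1 : f.natDegree ≠ 0 := by omega
  have hr0 : 0 < r := by linarith
  intro c hc
  have hs0 : 0 < r ^ ((1 : ℝ) / n) := Real.rpow_pos_of_pos hr0 _
  have hneg : r ^ (-(1 : ℝ) / n) = (r ^ ((1 : ℝ) / n))⁻¹ := by
    rw [← Real.rpow_neg hr0.le]
    congr 1
    ring
  have hc0 : 0 < c := by
    refine lt_trans ?_ hc
    rw [hneg]
    positivity
  have h1 : d < c * r ^ ((1 : ℝ) / n) := by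
    rw [hneg, ← div_eq_mul_inv, div_lt_iff₀ hs0] at hc
    exact hc
  obtain ⟨c', hc1, hc2⟩ := exists_between h1
  have hc'0 : 0 < c' := hd.trans hc1
  obtain ⟨k, hk0, hV⟩ := hT c' hc1
  have hne : (lem f r ∩ O).Nonempty := by
    obtain ⟨x, hx⟩ := hk
    exact ⟨x, le_trans hx.1 hr.le, hx.2⟩
  obtain ⟨N, hN, z, hz, hzb⟩ := fekete _ (lem_part_compact hf hn1 hS) hne c' hc'0 k hk0 hV
  have hdeg : (∏ i, (X - C (z i))).natDegree = N := by
    rw [natDegree_prod_of_monic _ _ fun i _ => monic_X_sub_C (z i)]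
    simp
  refine pass_down_V hf hn hn0 hr hS hk (T := ∏ i, (X - C (z i)))
    (monic_prod_of_monic _ _ fun i _ => monic_X_sub_C (z i)) (c' ^ N) ?_ c hc0 ?_
  · intro x hx
    change ‖(∏ i, (X - C (z i))).eval x‖ ≤ c' ^ N
    rw [eval_prod, norm_prod]
    refine le_trans (le_of_eq ?_) (hzb x hx)
    refine Finset.prod_congr rfl fun i _ => ?_
    rw [eval_sub, eval_X, eval_C]
  · rw [hdeg]
    exact pow_lt_pow_left₀ hc2 hc'0.le hN.ne'

end Pool.Agent.H60.EH
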