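import Mathlib

/-!
# EH-PDa: Lagrange interpolation and Vandermonde determinants
-/

set_option autoImplicit false

open Polynomial Set

noncomputable section

namespace Pool.Agent.H60.EH

/-- the norm of a Vandermonde determinant, one point taken out -/
theorem vdm_out (n : ℕ) (z : Fin (n + 1) → ℂ) (j : Fin (n + 1)) :
    ‖(Matrix.vandermonde z).det‖ =
      (∏ i : Fin n, ‖z j - z (j.succAbove i)‖) *
        ‖(Matrix.vandermonde (fun i : Fin n => z (j.succAbove i))).det‖ := by
  have h0 : z = (Fin.cons (z j) (fun i : Fin n => z (j.succAbove i)) : Fin (n + 1) → ℂ) ∘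
      j.cycleRange := by
    funext k
    refine Fin.succAboveCases j ?_ (fun i => ?_) k
    · simp [Fin.cycleRange_self]
    · simp [Fin.cycleRange_succAbove]
  have h1 : ‖(Matrix.vandermonde z).det‖ =
      ‖(Matrix.vandermonde
        (Fin.cons (z j) (fun i : Fin n => z (j.succAbove i)) : Fin (n + 1) → ℂ)).det‖ := by
    conv_lhs => rw [h0]
    have h2 : Matrix.vandermonde
        ((Fin.cons (z j) (fun i : Fin n => z (j.succAbove i)) : Fin (n + 1) → ℂ) ∘ j.cycleRange) =
        (Matrix.vandermonde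
          (Fin.cons (z j) (fun i : Fin n => z (j.succAbove i)) : Fin (n + 1) → ℂ)).submatrix
            j.cycleRange id := by
      ext a b
      rfl
    rw [h2, Matrix.det_permute]
    rcases Int.units_eq_one_or (Equiv.Perm.sign j.cycleRange) with h | h <;> rw [h] <;> simp
  rw [h1, Matrix.det_vandermonde, Matrix.det_vandermonde, Fin.prod_univ_succ, norm_mul]
  congr 1
  · rw [Fin.prod_Ioi_zero, norm_prod]
    refine Finset.prod_congr rfl fun i _ => ?_
    simp only [Fin.cons_succ, Fin.cons_zero]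
    exact norm_sub_rev _ _
  · congr 1
    refine Finset.prod_congr rfl fun i _ => ?_
    rw [Fin.prod_Ioi_succ]
    refine Finset.prod_congr rfl fun k _ => ?_
    simp only [Fin.cons_succ]

/-- products over the complement of a point -/
theorem prod_erase_fin (n : ℕ) (j : Fin (n + 1)) (g : Fin (n + 1) → ℂ) :
    ∏ i ∈ Finset.univ.erase j, g i = ∏ i : Fin n, g (j.succAbove i) := by
  have h1 : (Finset.univ.erase j : Finset (Fin (n + 1))) = Finset.univ.image j.succAbove := by
    rw [Fin.image_succAbove_univ]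
    ext a
    simp
  rw [h1, Finset.prod_image (fun a _ b _ h => Fin.succAbove_right_injective h)]

/-- Lagrange interpolation: a polynomial which is small at the points is small -/
theorem lagrange_bound (N : ℕ) (z : Fin (N + 1) → ℂ) (hz : Function.Injective z) (Q : ℂ[X])
    (hQ : Q.natDegree ≤ N) (hQ1 : ∀ j, ‖Q.eval (z j)‖ ≤ 1) (κ : ℝ) (hκ : 0 < κ)
    (hκz : ∀ j, κ ≤ ∏ i : Fin N, ‖z j - z (j.succAbove i)‖) (w : ℂ) (δ : ℝ) (hδ : 0 < δ)
    (hw : ∀ j, δ ≤ ‖w - z j‖) :
    ‖Q.eval w‖ ≤ (N + 1) * (∏ i, ‖w - z i‖) / (δ * κ) := by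
  have hdeg : Q.degree < (Finset.univ : Finset (Fin (N + 1))).card := by
    rw [Finset.card_univ, Fintype.card_fin]
    refine lt_of_le_of_lt degree_le_natDegree ?_
    exact_mod_cast Nat.lt_succ_of_le hQ
  have h1 := Lagrange.eq_interpolate_of_eval_eq (s := (Finset.univ : Finset (Fin (N + 1))))
    (v := z) (f := Q) (fun j => Q.eval (z j)) (hz.injOn) hdeg (fun i _ => rfl)
  have h2 : Q.eval w = ∑ j, Q.eval (z j) * (Lagrange.basis Finset.univ z j).eval w := by
    conv_lhs => rw [h1]
    rw [Lagrange.interpolate_apply, eval_finsetSum]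
    refine Finset.sum_congr rfl fun j _ => ?_
    rw [eval_mul, eval_C]
  have h3 : ∀ j, ‖(Lagrange.basis Finset.univ z j).eval w‖ ≤ (∏ i, ‖w - z i‖) / (δ * κ) := by
    intro j
    have h4 : (Lagrange.basis Finset.univ z j).eval w =
        ∏ i : Fin N, ((z j - z (j.succAbove i))⁻¹ * (w - z (j.succAbove i))) := by
      rw [Lagrange.basis, eval_prod, prod_erase_fin N j]
      refine Finset.prod_congr rfl fun i _ => ?_
      rw [Lagrange.basisDivisor]
      simp
    have h5 : ‖(Lagrange.basis Finset.univ z j).eval w‖ =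
        (∏ i : Fin N, ‖w - z (j.succAbove i)‖) / ∏ i : Fin N, ‖z j - z (j.succAbove i)‖ := by
      rw [h4, norm_prod, ← Finset.prod_div_distrib]
      refine Finset.prod_congr rfl fun i _ => ?_
      rw [norm_mul, norm_inv, inv_mul_eq_div]
    rw [h5, Fin.prod_univ_succAbove _ j]
    have h6 : 0 < ‖w - z j‖ := lt_of_lt_of_le hδ (hw j)
    have h7 : 0 ≤ ∏ i : Fin N, ‖w - z (j.succAbove i)‖ := Finset.prod_nonneg fun i _ => norm_nonneg _
    have h8 : 0 < ∏ i : Fin N, ‖z j - z (j.succAbove i)‖ := lt_of_lt_of_le hκ (hκz j)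
    rw [div_le_div_iff₀ h8 (mul_pos hδ hκ)]
    calc (∏ i : Fin N, ‖w - z (j.succAbove i)‖) * (δ * κ)
        ≤ (∏ i : Fin N, ‖w - z (j.succAbove i)‖) *
          (‖w - z j‖ * ∏ i : Fin N, ‖z j - z (j.succAbove i)‖) :=
          mul_le_mul_of_nonneg_left (mul_le_mul (hw j) (hκz j) hκ.le h6.le) h7
      _ = _ := by ring
  rw [h2]
  refine (norm_sum_le _ _).trans ?_
  calc ∑ j, ‖Q.eval (z j) * (Lagrange.basis Finset.univ z j).eval w‖
      ≤ ∑ _j : Fin (N + 1), (∏ i, ‖w - z i‖) / (δ * κ) := by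
        refine Finset.sum_le_sum fun j _ => ?_
        rw [norm_mul]
        calc ‖Q.eval (z j)‖ * ‖(Lagrange.basis Finset.univ z j).eval w‖
            ≤ 1 * ((∏ i, ‖w - z i‖) / (δ * κ)) :=
              mul_le_mul (hQ1 j) (h3 j) (norm_nonneg _) zero_le_one
          _ = _ := one_mul _
    _ = (N + 1) * (∏ i, ‖w - z i‖) / (δ * κ) := by
        rw [Finset.sum_const, Finset.card_univ, Fintype.card_fin, nsmul_eq_mul]
        push_cast
        ring

end Pool.Agent.H60.EH
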