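import Mathlib

/-!
# EH-PDb: maximum modulus at infinity for a quotient of polynomials
-/

set_option autoImplicit false

open Polynomial Set

noncomputable section

namespace Pool.Agent.H60.EH

/-- the reversed polynomial with respect to the centre `a` -/
def rev (T : ℂ[X]) (a ζ : ℂ) : ℂ := (T.roots.map (fun t => 1 - ζ * (t - a))).prod

theorem rev_zero (T : ℂ[X]) (a : ℂ) : rev T a 0 = 1 := by
  unfold rev
  simp

theorem rev_diff (T : ℂ[X]) (a : ℂ) : Differentiable ℂ (rev T a) := by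
  unfold rev
  generalize T.roots = s
  induction s using Multiset.induction_on with
  | empty =>
    simp only [Multiset.map_zero, Multiset.prod_zero]
    exact differentiable_const _
  | cons b s ih =>
    simp only [Multiset.map_cons, Multiset.prod_cons]
    refine Differentiable.mul ?_ ih
    fun_prop

theorem rev_eval {T : ℂ[X]} (hT : T.Monic) (a ζ : ℂ) (hζ : ζ ≠ 0) :
    rev T a ζ = ζ ^ T.natDegree * T.eval (a + ζ⁻¹) := by
  have hc : T.roots.card = T.natDegree := by
    rw [(IsAlgClosed.splits T).natDegree_eq_card_roots]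
  rw [(IsAlgClosed.splits T).eval_eq_prod_roots, hT.leadingCoeff, one_mul, ← hc]
  unfold rev
  generalize T.roots = s
  induction s using Multiset.induction_on with
  | empty => simp
  | cons b s ih =>
    simp only [Multiset.map_cons, Multiset.prod_cons, Multiset.card_cons]
    rw [ih, pow_succ]
    field_simp
    ring

/-- maximum modulus at infinity -/
theorem max_ratio {T P : ℂ[X]} (hT : T.Monic) (hP : P.Monic) (K : Set ℂ) (hK : IsCompact K)
    (a : ℂ) (ha : a ∈ interior K) (hz : ∀ z, P.eval z = 0 → z ∈ interior K) (κ : ℝ)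
    (hb : ∀ w ∈ K, w ∉ interior K → ‖T.eval w‖ ^ P.natDegree ≤ κ * ‖P.eval w‖ ^ T.natDegree) :
    1 ≤ κ := by
  obtain ⟨ε, hε, hball⟩ := Metric.isOpen_iff.1 isOpen_interior a ha
  obtain ⟨B, hB⟩ := hK.isBounded.exists_norm_le
  -- the domain
  obtain ⟨V, hV⟩ : ∃ V : Set ℂ, V = {ζ : ℂ | ζ = 0 ∨ a + ζ⁻¹ ∉ K} := ⟨_, rfl⟩
  have h0V : (0 : ℂ) ∈ V := by
    rw [hV]
    exact Or.inl rfl
  have hnear : ∀ ζ : ℂ, ζ ≠ 0 → ‖ζ‖ < 1 / (B + ‖a‖ + 1) → a + ζ⁻¹ ∉ K := by
    intro ζ h0 hζ hmem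
    have hB0 : 0 ≤ B := (norm_nonneg _).trans (hB _ hmem)
    have h1 : ‖ζ⁻¹‖ ≤ B + ‖a‖ := by
      calc ‖ζ⁻¹‖ = ‖(a + ζ⁻¹) - a‖ := by rw [add_sub_cancel_left]
        _ ≤ ‖a + ζ⁻¹‖ + ‖a‖ := norm_sub_le _ _
        _ ≤ B + ‖a‖ := by linarith [hB _ hmem]
    have h2 : 0 < ‖ζ‖ := norm_pos_iff.2 h0
    have hpos : 0 < B + ‖a‖ + 1 := by positivity
    rw [norm_inv, inv_le_iff_one_le_mul₀ h2] at h1
    rw [lt_div_iff₀ hpos] at hζ
    nlinarith
  have hcont : ∀ ζ : ℂ, ζ ≠ 0 → ContinuousAt (fun x : ℂ => a + x⁻¹) ζ := by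
    intro ζ h0
    exact continuousAt_const.add (continuousAt_inv₀ h0)
  have hVo : IsOpen V := by
    rw [isOpen_iff_mem_nhds]
    intro ζ hζ
    by_cases h0 : ζ = 0
    · subst h0
      by_cases hBn : 0 < B + ‖a‖ + 1
      · refine Filter.mem_of_superset (Metric.ball_mem_nhds (0 : ℂ) (one_div_pos.2 hBn)) ?_
        intro x hx
        rw [mem_ball_zero_iff] at hx
        rw [hV]
        by_cases hx0 : x = 0
        · exact Or.inl hx0
        · exact Or.inr (hnear x hx0 hx)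
      · exfalso
        have hB0 : 0 ≤ B := (norm_nonneg _).trans (hB a (interior_subset ha))
        have := norm_nonneg a
        linarith
    · have h1 : a + ζ⁻¹ ∉ K := by
        rw [hV] at hζ
        exact hζ.resolve_left h0
      have h2 : Kᶜ ∈ nhds (a + ζ⁻¹) := hK.isClosed.isOpen_compl.mem_nhds h1
      refine Filter.mem_of_superset ((hcont ζ h0) h2) ?_
      intro x hx
      rw [hV]
      exact Or.inr hx
  have hVb : Bornology.IsBounded V := by
    rw [Metric.isBounded_iff_subset_closedBall (0 : ℂ)]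
    refine ⟨1 / ε, ?_⟩
    intro ζ hζ
    rw [mem_closedBall_zero_iff]
    by_cases h0 : ζ = 0
    · subst h0
      rw [norm_zero]
      positivity
    · have h1 : a + ζ⁻¹ ∉ K := by
        rw [hV] at hζ
        exact hζ.resolve_left h0
      by_contra hcon
      push Not at hcon
      apply h1
      refine interior_subset (hball ?_)
      rw [Metric.mem_ball, dist_eq_norm, add_sub_cancel_left, norm_inv]
      rw [div_lt_iff₀ hε] at hcon
      have h2 : 0 < ‖ζ‖ := norm_pos_iff.2 h0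
      rw [inv_lt_iff_one_lt_mul₀ h2]
      linarith
  have hcl : ∀ ζ ∈ closure V, ζ ≠ 0 → a + ζ⁻¹ ∉ interior K := by
    intro ζ hζ h0 hmem
    have h1 : interior K ∈ nhds (a + ζ⁻¹) := isOpen_interior.mem_nhds hmem
    have h2 := (hcont ζ h0) h1
    have h3 : ({0}ᶜ : Set ℂ) ∈ nhds ζ := isOpen_compl_singleton.mem_nhds h0
    obtain ⟨x, hx, hxV⟩ := mem_closure_iff_nhds.1 hζ _ (Filter.inter_mem h2 h3)
    rw [hV] at hxV
    rcases hxV with h | h
    · exact hx.2 h
    · exact h (interior_subset hx.1)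
  have hPne : ∀ ζ ∈ closure V, rev P a ζ ≠ 0 := by
    intro ζ hζ
    by_cases h0 : ζ = 0
    · subst h0
      rw [rev_zero]
      exact one_ne_zero
    · rw [rev_eval hP a ζ h0]
      refine mul_ne_zero (pow_ne_zero _ h0) fun h => ?_
      exact hcl ζ hζ h0 (hz _ h)
  have hd : DiffContOnCl ℂ (fun ζ => (rev T a ζ) ^ P.natDegree / (rev P a ζ) ^ T.natDegree) V := by
    have hdo : DifferentiableOn ℂ
        (fun ζ => (rev T a ζ) ^ P.natDegree / (rev P a ζ) ^ T.natDegree) (closure V) := by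
      intro ζ hζ
      exact ((((rev_diff T a) ζ).pow _).div (((rev_diff P a) ζ).pow _)
        (pow_ne_zero _ (hPne ζ hζ))).differentiableWithinAt
    exact hdo.diffContOnCl
  have hfr : ∀ ζ ∈ frontier V,
      ‖(fun ζ => (rev T a ζ) ^ P.natDegree / (rev P a ζ) ^ T.natDegree) ζ‖ ≤ κ := by
    intro ζ hζ
    have h1 : ζ ∉ V := by
      intro h
      rw [frontier, hVo.interior_eq] at hζ
      exact hζ.2 h
    have h2 : ζ ∈ closure V := hζ.1
    have h0 : ζ ≠ 0 := by
      rintro rfl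
      exact h1 h0V
    have h3 : a + ζ⁻¹ ∈ K := by
      by_contra hcon
      exact h1 (by rw [hV]; exact Or.inr hcon)
    have h4 := hb _ h3 (hcl ζ h2 h0)
    have h5 : 0 < ‖rev P a ζ‖ := norm_pos_iff.2 (hPne ζ h2)
    change ‖(rev T a ζ) ^ P.natDegree / (rev P a ζ) ^ T.natDegree‖ ≤ κ
    rw [norm_div, norm_pow, norm_pow, div_le_iff₀ (pow_pos h5 _), rev_eval hT a ζ h0,
      rev_eval hP a ζ h0, norm_mul, norm_mul, norm_pow, norm_pow, mul_pow, mul_pow, ← pow_mul,
      ← pow_mul, mul_comm P.natDegree T.natDegree]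
    have h6 : 0 ≤ ‖ζ‖ ^ (T.natDegree * P.natDegree) := by positivity
    calc ‖ζ‖ ^ (T.natDegree * P.natDegree) * ‖T.eval (a + ζ⁻¹)‖ ^ P.natDegree
        ≤ ‖ζ‖ ^ (T.natDegree * P.natDegree) * (κ * ‖P.eval (a + ζ⁻¹)‖ ^ T.natDegree) :=
          mul_le_mul_of_nonneg_left h4 h6
      _ = _ := by ring
  have hmain := Complex.norm_le_of_forall_mem_frontier_norm_le hVb hd hfr (subset_closure h0V)
  simpa [rev_zero] using hmain

end Pool.Agent.H60.EH
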