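import Pool.Agent.H60.EH.PDa
import Pool.Agent.H60.EH.PDb
import Pool.Agent.H88.LE.CA
import Pool.Agent.H88.LE.CDa

/-!
# EH-PDc: passing down a level

`Sep f r O O'`, `1 < r`, `T` monic with `|T| ≤ b` on `{|f| ≤ r} ∩ O`, `b < (c r^{1/n})^{deg T}`.
Then `{|f| ≤ 1} ∩ O` lies in `{|p| ≤ c^{deg p}}` for a monic polynomial `p` with zeros there.
-/

set_option autoImplicit false

open Polynomial Set
open Pool.Agent.H88.LD Pool.Agent.H88.LE

noncomputable section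

namespace Pool.Agent.H60.EH

/-- quotients of consecutive terms -/
theorem ratio_exists (M : ℕ → ℝ) (c c₁ : ℝ) (hc₁ : 0 < c₁) (hc : c₁ < c)
    (hM : ∀ N : ℕ, 0 < N → c ^ ((N : ℝ) * (N - 1) / 2) ≤ M N) (N₀ : ℕ) :
    ∃ N : ℕ, N₀ ≤ N ∧ 0 < N ∧ c₁ ^ N * M N ≤ M (N + 1) := by
  by_contra hcon
  push Not at hcon
  have hc0 : 0 < c := hc₁.trans hc
  obtain ⟨R, hR⟩ : ∃ R : ℕ → ℝ, ∀ N, R N = M N / c₁ ^ ((N : ℝ) * (N - 1) / 2) :=
    ⟨fun N => M N / c₁ ^ ((N : ℝ) * (N - 1) / 2), fun _ => rfl⟩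
  have hstep : ∀ N : ℕ, N₀ + 1 ≤ N → R (N + 1) ≤ R N := by
    intro N hN
    have h1 := hcon N (by omega) (by omega)
    rw [hR, hR]
    have e1 : c₁ ^ (((N + 1 : ℕ) : ℝ) * (((N + 1 : ℕ) : ℝ) - 1) / 2) =
        c₁ ^ N * c₁ ^ ((N : ℝ) * (N - 1) / 2) := by
      rw [← Real.rpow_natCast c₁ N, ← Real.rpow_add hc₁]
      congr 1
      push_cast
      ring
    have h2 : 0 < c₁ ^ ((N : ℝ) * (N - 1) / 2) := Real.rpow_pos_of_pos hc₁ _
    have h3 : 0 < c₁ ^ N := pow_pos hc₁ N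
    rw [e1, div_le_div_iff₀ (mul_pos h3 h2) h2]
    calc M (N + 1) * c₁ ^ ((N : ℝ) * (N - 1) / 2) ≤ (c₁ ^ N * M N) * c₁ ^ ((N : ℝ) * (N - 1) / 2) :=
          mul_le_mul_of_nonneg_right h1.le h2.le
      _ = _ := by ring
  have hmono : ∀ k : ℕ, R (N₀ + 1 + k) ≤ R (N₀ + 1) := by
    intro k
    induction k with
    | zero => exact le_refl _
    | succ k ih => exact (hstep (N₀ + 1 + k) (by omega)).trans ih
  have hlow : ∀ N : ℕ, 2 ≤ N → (c / c₁) ^ (N - 1) ≤ R N := by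
    intro N hN
    have h1 := hM N (by omega)
    have h2 : 0 < c₁ ^ ((N : ℝ) * (N - 1) / 2) := Real.rpow_pos_of_pos hc₁ _
    have h3 : (c / c₁) ^ ((N : ℝ) * (N - 1) / 2) ≤ R N := by
      rw [hR, Real.div_rpow hc0.le hc₁.le]
      exact div_le_div_of_nonneg_right h1 h2.le
    refine le_trans ?_ h3
    rw [← Real.rpow_natCast (c / c₁) (N - 1)]
    refine Real.rpow_le_rpow_of_exponent_le ?_ ?_
    · rw [le_div_iff₀ hc₁]
      linarith
    · have h4 : (2 : ℝ) ≤ N := by exact_mod_cast hN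
      rw [Nat.cast_sub (by omega : 1 ≤ N)]
      push_cast
      nlinarith
  have h1 : 1 < c / c₁ := by
    rw [lt_div_iff₀ hc₁]
    linarith
  obtain ⟨k, hk⟩ := pow_unbounded_of_one_lt (R (N₀ + 1)) h1
  have h2 := hmono (k + 1)
  have h3 := hlow (N₀ + 1 + (k + 1)) (by omega)
  have h4 : (c / c₁) ^ k ≤ (c / c₁) ^ (N₀ + 1 + (k + 1) - 1) :=
    pow_le_pow_right₀ h1.le (by omega)
  linarith

/-- the asymptotic comparison -/
theorem pd_asym (b c₁ r s δ : ℝ) (n d : ℕ) (hn : 0 < n) (hb : 0 ≤ b) (hc₁ : 0 < c₁) (hs : 1 ≤ s)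
    (hsr : s ^ n = r) (hδ : 0 < δ) (hbc : b < (c₁ * s) ^ d) :
    ∃ N₀ : ℕ, ∀ N : ℕ, N₀ ≤ N →
      b ^ (N + 1) * ((N + 1) / (δ * c₁ ^ N * r ^ (N / n))) ^ d < 1 := by
  have hs0 : 0 < s := by linarith
  have hr0 : 0 < r := by rw [← hsr]; positivity
  have hcs : 0 < (c₁ * s) ^ d := by positivity
  obtain ⟨q, hq⟩ : ∃ q : ℝ, q = b / (c₁ * s) ^ d := ⟨_, rfl⟩
  have hq0 : 0 ≤ q := by rw [hq]; positivity
  have hq1 : q < 1 := by
    rw [hq, div_lt_one hcs]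
    exact hbc
  obtain ⟨C, hC⟩ : ∃ C : ℝ, C = c₁ * r / δ := ⟨_, rfl⟩
  have hC0 : 0 < C := by rw [hC]; positivity
  have hlim := tendsto_pow_const_mul_const_pow_of_abs_lt_one d (r := q)
    (by rw [abs_of_nonneg hq0]; exact hq1)
  have hlim2 : Filter.Tendsto (fun N : ℕ => C ^ d * (((N + 1 : ℕ) : ℝ) ^ d * q ^ (N + 1)))
      Filter.atTop (nhds 0) := by
    have h1 := (hlim.comp (Filter.tendsto_add_atTop_nat 1)).const_mul (C ^ d)
    simpa using h1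
  have hev := hlim2.eventually (gt_mem_nhds (zero_lt_one))
  obtain ⟨N₀, hN₀⟩ := Filter.eventually_atTop.1 hev
  refine ⟨N₀, fun N hN => lt_of_le_of_lt ?_ (hN₀ N hN)⟩
  have h1 : s ^ (N + 1) ≤ r ^ (N / n) * r := by
    have h2 : N + 1 ≤ n * (N / n + 1) := by
      have := Nat.lt_mul_div_succ N hn
      omega
    calc s ^ (N + 1) ≤ s ^ (n * (N / n + 1)) := pow_le_pow_right₀ hs h2
      _ = r ^ (N / n) * r := by rw [pow_mul, hsr, pow_succ]
  have hX : 0 < r ^ (N / n) := pow_pos hr0 _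
  have h3 : ((N : ℝ) + 1) / (δ * c₁ ^ N * r ^ (N / n)) ≤ C * (N + 1) / (c₁ * s) ^ (N + 1) := by
    rw [div_le_div_iff₀ (by positivity) (by positivity), hC, mul_pow]
    have h4 : (c₁ * r / δ * ((N : ℝ) + 1)) * (δ * c₁ ^ N * r ^ (N / n)) =
        ((N : ℝ) + 1) * (c₁ ^ (N + 1) * (r ^ (N / n) * r)) := by
      rw [pow_succ c₁ N]
      field_simp
    rw [h4]
    have h5 : 0 ≤ (N : ℝ) + 1 := by positivity
    exact mul_le_mul_of_nonneg_left (mul_le_mul_of_nonneg_left h1 (by positivity)) h5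
  have h6 : 0 ≤ ((N : ℝ) + 1) / (δ * c₁ ^ N * r ^ (N / n)) := by positivity
  calc b ^ (N + 1) * ((N + 1) / (δ * c₁ ^ N * r ^ (N / n))) ^ d
      ≤ b ^ (N + 1) * (C * (N + 1) / (c₁ * s) ^ (N + 1)) ^ d :=
        mul_le_mul_of_nonneg_left (pow_le_pow_left₀ h6 h3 d) (by positivity)
    _ = C ^ d * (((N + 1 : ℕ) : ℝ) ^ d * q ^ (N + 1)) := by
        rw [hq, div_pow, div_pow, mul_pow, ← pow_mul, ← pow_mul, mul_comm (N + 1) d]
        push_cast
        ring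

theorem lem_part_compact {f : ℂ[X]} (hf : f.Monic) (hn0 : f.natDegree ≠ 0) {r : ℝ}
    {O O' : Set ℂ} (hS : Sep f r O O') : IsCompact (lem f r ∩ O) := by
  have h1 : lem f r ∩ O = lem f r ∩ O'ᶜ := by
    ext z
    refine ⟨fun h => ⟨h.1, fun h' => (Set.disjoint_left.1 hS.disj) h.2 h'⟩, fun h => ⟨h.1, ?_⟩⟩
    rcases hS.cover h.1 with h' | h'
    · exact h'
    · exact absurd h' h.2
  rw [h1]
  exact (lem_compact hf hn0 r).inter_right hS.isOpen'.isClosed_compl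

theorem cont_vdm (N : ℕ) : Continuous (fun z : Fin N → ℂ => ‖(Matrix.vandermonde z).det‖) := by
  have h : (fun z : Fin N → ℂ => ‖(Matrix.vandermonde z).det‖) =
      fun z : Fin N → ℂ => ‖∏ i : Fin N, ∏ j ∈ Finset.Ioi i, (z j - z i)‖ := by
    funext z
    rw [Matrix.det_vandermonde]
  rw [h]
  refine Continuous.norm ?_
  refine continuous_finsetProd _ fun i _ => continuous_finsetProd _ fun j _ => ?_
  exact (continuous_apply j).sub (continuous_apply i)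

theorem pass_down_V {f : ℂ[X]} (hf : f.Monic) {n : ℕ} (hn : f.natDegree = n) (hn0 : 0 < n)
    {r : ℝ} (hr : 1 < r) {O O' : Set ℂ} (hS : Sep f r O O') (hk : (lem f 1 ∩ O).Nonempty)
    {T : ℂ[X]} (hT : T.Monic) (b : ℝ) (hTb : lem f r ∩ O ⊆ lem T b) (c : ℝ) (hc : 0 < c)
    (hbc : b < (c * r ^ ((1 : ℝ) / n)) ^ T.natDegree) :
    ∃ N : ℕ, 0 < N ∧ ∀ z : Fin N → ℂ, (∀ i, z i ∈ lem f 1 ∩ O) →
      ‖(Matrix.vandermonde z).det‖ < c ^ ((N : ℝ) * (N - 1) / 2) := by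
  have hn1 : f.natDegree ≠ 0 := by omega
  have hr0 : 0 < r := by linarith
  have hA : IsCompact (lem f 1 ∩ O) := part_compact hf hn1 hr.le hS
  have hK : IsCompact (lem f r ∩ O) := lem_part_compact hf hn1 hS
  by_contra hcon
  have key : ∀ N : ℕ, 0 < N → ∃ z : Fin N → ℂ, (∀ i, z i ∈ lem f 1 ∩ O) ∧
      c ^ ((N : ℝ) * (N - 1) / 2) ≤ ‖(Matrix.vandermonde z).det‖ := by
    push Not at hcon
    exact hcon
  -- maximisers
  have hmax : ∀ N : ℕ, ∃ z : Fin N → ℂ, (∀ i, z i ∈ lem f 1 ∩ O) ∧ ∀ y : Fin N → ℂ,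
      (∀ i, y i ∈ lem f 1 ∩ O) → ‖(Matrix.vandermonde y).det‖ ≤ ‖(Matrix.vandermonde z).det‖ := by
    intro N
    have h1 : IsCompact (Set.univ.pi fun _ : Fin N => lem f 1 ∩ O) :=
      isCompact_univ_pi fun _ => hA
    have h2 : (Set.univ.pi fun _ : Fin N => lem f 1 ∩ O).Nonempty := by
      obtain ⟨x, hx⟩ := hk
      exact ⟨fun _ => x, fun _ _ => hx⟩
    obtain ⟨z, hz, hzm⟩ := h1.exists_isMaxOn h2 (cont_vdm N).continuousOn
    exact ⟨z, fun i => hz i (Set.mem_univ i), fun y hy => hzm (fun i _ => hy i)⟩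
  choose zm hzm hzmax using hmax
  obtain ⟨M, hM⟩ : ∃ M : ℕ → ℝ, ∀ N, M N = ‖(Matrix.vandermonde (zm N)).det‖ :=
    ⟨_, fun _ => rfl⟩
  have hMlow : ∀ N : ℕ, 0 < N → c ^ ((N : ℝ) * (N - 1) / 2) ≤ M N := by
    intro N hN
    obtain ⟨z, hz, hz2⟩ := key N hN
    rw [hM]
    exact hz2.trans (hzmax N z hz)
  -- the constants
  obtain ⟨s, hs⟩ : ∃ s : ℝ, s = r ^ ((1 : ℝ) / n) := ⟨_, rfl⟩
  have hs0 : 0 < s := by rw [hs]; exact Real.rpow_pos_of_pos hr0 _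
  have hs1 : 1 ≤ s := by
    rw [hs]
    exact Real.one_le_rpow hr.le (by positivity)
  have hsr : s ^ n = r := by
    rw [hs, ← Real.rpow_natCast, ← Real.rpow_mul hr0.le]
    have : (1 : ℝ) / n * n = 1 := by
      have : (n : ℝ) ≠ 0 := by exact_mod_cast hn0.ne'
      field_simp
    rw [this, Real.rpow_one]
  rw [← hs] at hbc
  have hb0 : 0 ≤ b := by
    obtain ⟨x, hx⟩ := hk
    exact (norm_nonneg _).trans (hTb ⟨hx.1.trans hr.le, hx.2⟩)
  obtain ⟨c₁, hc₁0, hc₁c, hbc₁⟩ : ∃ c₁ : ℝ, 0 < c₁ ∧ c₁ < c ∧ b < (c₁ * s) ^ T.natDegree := by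
    have hcont : Continuous (fun x : ℝ => (x * s) ^ T.natDegree) := by fun_prop
    have h1 : ∀ᶠ x in nhdsWithin c (Iio c), b < (x * s) ^ T.natDegree :=
      (hcont.continuousAt.eventually (lt_mem_nhds hbc)).filter_mono nhdsWithin_le_nhds
    have h2 : ∀ᶠ x in nhdsWithin c (Iio c), 0 < x :=
      (lt_mem_nhds hc).filter_mono nhdsWithin_le_nhds
    have h3 : ∀ᶠ x in nhdsWithin c (Iio c), x < c := self_mem_nhdsWithin
    obtain ⟨x, hx1, hx2, hx3⟩ := (h1.and (h2.and h3)).exists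
    exact ⟨x, hx2, hx3, hx1⟩
  -- the distance
  have hcf : Continuous (fun z : ℂ => ‖f.eval z‖) := by fun_prop
  obtain ⟨δ, hδ, hdist⟩ : ∃ δ : ℝ, 0 < δ ∧ ∀ w, ‖f.eval w‖ = r → ∀ z ∈ lem f 1 ∩ O,
      δ ≤ ‖w - z‖ := by
    have h1 : IsClosed {w : ℂ | ‖f.eval w‖ = r} := isClosed_eq hcf continuous_const
    have h2 : Disjoint (lem f 1 ∩ O) {w : ℂ | ‖f.eval w‖ = r} := by
      rw [Set.disjoint_left]
      intro z hz hz'
      have h3 : ‖f.eval z‖ ≤ 1 := hz.1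
      have h4 : ‖f.eval z‖ = r := hz'
      linarith
    obtain ⟨δ, hδ, h3⟩ := Metric.exists_pos_forall_lt_edist hA h1 h2
    refine ⟨δ, by exact_mod_cast hδ, fun w hw z hz => ?_⟩
    have h4 := h3 z hz w hw
    rw [edist_comm, edist_dist, dist_eq_norm] at h4
    have h5 : (δ : ENNReal) = ENNReal.ofReal (δ : ℝ) := by simp
    rw [h5] at h4
    exact ((ENNReal.ofReal_lt_ofReal_iff_of_nonneg (NNReal.coe_nonneg δ)).1 h4).le
  obtain ⟨N₀, hN₀⟩ := pd_asym b c₁ r s δ n T.natDegree hn0 hb0 hc₁0 hs1 hsr hδ hbc₁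
  obtain ⟨N, hN, hNpos, hratio⟩ := ratio_exists M c c₁ hc₁0 hc₁c hMlow N₀
  obtain ⟨z, hzdef⟩ : ∃ z : Fin (N + 1) → ℂ, z = zm (N + 1) := ⟨_, rfl⟩
  have hzA : ∀ i, z i ∈ lem f 1 ∩ O := by
    intro i
    rw [hzdef]
    exact hzm _ i
  have hMz : M (N + 1) = ‖(Matrix.vandermonde z).det‖ := by rw [hM, hzdef]
  have hMNpos : 0 < M N := lt_of_lt_of_le (Real.rpow_pos_of_pos hc _) (hMlow N hNpos)
  have hMN1pos : 0 < M (N + 1) :=
    lt_of_lt_of_le (Real.rpow_pos_of_pos hc _) (hMlow (N + 1) (Nat.succ_pos N))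
  have hinj : Function.Injective z := by
    have h1 : (Matrix.vandermonde z).det ≠ 0 := by
      rw [← norm_pos_iff, ← hMz]
      exact hMN1pos
    exact Matrix.det_vandermonde_ne_zero_iff.1 h1
  have hκz : ∀ j, c₁ ^ N ≤ ∏ i : Fin N, ‖z j - z (j.succAbove i)‖ := by
    intro j
    have h1 := vdm_out N z j
    have h2 : ‖(Matrix.vandermonde (fun i : Fin N => z (j.succAbove i))).det‖ ≤ M N := by
      rw [hM]
      exact hzmax N _ fun i => hzA _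
    have h3 : 0 ≤ ∏ i : Fin N, ‖z j - z (j.succAbove i)‖ :=
      Finset.prod_nonneg fun i _ => norm_nonneg _
    rw [← hMz] at h1
    have h4 : c₁ ^ N * M N ≤ (∏ i : Fin N, ‖z j - z (j.succAbove i)‖) * M N := by
      calc c₁ ^ N * M N ≤ M (N + 1) := hratio
        _ = _ := h1
        _ ≤ _ := mul_le_mul_of_nonneg_left h2 h3
    exact le_of_mul_le_mul_right h4 hMNpos
  -- the lower bound of P on |f| = r
  have hPlow : ∀ w, ‖f.eval w‖ = r →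
      r ^ (N / n) ≤ (N + 1) * (∏ i, ‖w - z i‖) / (δ * c₁ ^ N) := by
    intro w hw
    have h1 := lagrange_bound N z hinj (f ^ (N / n)) ?_ ?_ (c₁ ^ N) (pow_pos hc₁0 N) hκz w δ hδ
      (fun j => hdist w hw _ (hzA j))
    · rw [eval_pow, norm_pow, hw] at h1
      exact h1
    · rw [hf.natDegree_pow, hn]
      exact Nat.div_mul_le_self N n
    · intro j
      rw [eval_pow, norm_pow]
      exact pow_le_one₀ (norm_nonneg _) (hzA j).1
  obtain ⟨P, hPdef⟩ : ∃ P : ℂ[X], P = ∏ i, (X - C (z i)) := ⟨_, rfl⟩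
  have hPm : P.Monic := by
    rw [hPdef]
    exact monic_prod_of_monic _ _ fun i _ => monic_X_sub_C _
  have hPd : P.natDegree = N + 1 := by
    rw [hPdef, natDegree_prod_of_monic _ _ fun i _ => monic_X_sub_C (z i)]
    simp
  have hPe : ∀ w, ‖P.eval w‖ = ∏ i, ‖w - z i‖ := by
    intro w
    rw [hPdef, eval_prod, norm_prod]
    simp
  have hopen : IsOpen ({z : ℂ | ‖f.eval z‖ < r} ∩ O) :=
    (isOpen_lt hcf continuous_const).inter hS.isOpen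
  have hint : {z : ℂ | ‖f.eval z‖ < r} ∩ O ⊆ interior (lem f r ∩ O) := by
    refine interior_maximal ?_ hopen
    intro x hx
    have h1 : ‖f.eval x‖ < r := hx.1
    exact ⟨h1.le, hx.2⟩
  have hAint : ∀ x ∈ lem f 1 ∩ O, x ∈ interior (lem f r ∩ O) := by
    intro x hx
    exact hint ⟨lt_of_le_of_lt hx.1 hr, hx.2⟩
  obtain ⟨a, ha⟩ := hk
  have hfin := max_ratio hT hPm (lem f r ∩ O) hK a (hAint a ha) ?_
    (b ^ (N + 1) * ((N + 1) / (δ * c₁ ^ N * r ^ (N / n))) ^ T.natDegree) ?_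
  · exact absurd (hN₀ N hN) (not_lt.2 hfin)
  · intro x hx
    rw [hPdef, eval_prod, Finset.prod_eq_zero_iff] at hx
    obtain ⟨i, _, hi⟩ := hx
    rw [eval_sub, eval_X, eval_C, sub_eq_zero] at hi
    rw [hi]
    exact hAint _ (hzA i)
  · intro w hw hwi
    have hwr : ‖f.eval w‖ = r := by
      refine le_antisymm hw.1 (not_lt.1 fun hlt => ?_)
      exact hwi (hint ⟨hlt, hw.2⟩)
    have h1 := hPlow w hwr
    have h2 : ‖T.eval w‖ ≤ b := hTb hw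
    rw [hPd]
    have h3 : ‖T.eval w‖ ^ (N + 1) ≤ b ^ (N + 1) := pow_le_pow_left₀ (norm_nonneg _) h2 _
    have h4 : 0 < δ * c₁ ^ N := by positivity
    have h5 : 0 < r ^ (N / n) := pow_pos hr0 _
    have h6 : 1 ≤ ((N : ℝ) + 1) / (δ * c₁ ^ N * r ^ (N / n)) * ‖P.eval w‖ := by
      rw [le_div_iff₀ h4] at h1
      rw [hPe, div_mul_eq_mul_div, le_div_iff₀ (mul_pos h4 h5)]
      linarith
    have h7 : 1 ≤ (((N : ℝ) + 1) / (δ * c₁ ^ N * r ^ (N / n)) * ‖P.eval w‖) ^ T.natDegree :=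
      one_le_pow₀ h6
    calc ‖T.eval w‖ ^ (N + 1) ≤ b ^ (N + 1) * 1 := by rw [mul_one]; exact h3
      _ ≤ b ^ (N + 1) *
          (((N : ℝ) + 1) / (δ * c₁ ^ N * r ^ (N / n)) * ‖P.eval w‖) ^ T.natDegree :=
          mul_le_mul_of_nonneg_left h7 (by positivity)
      _ = _ := by rw [mul_pow]; ring

end Pool.Agent.H60.EH
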